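import Pool.Agent.Lib.MP_9bed89_co.Off.LowNum
import Pool.Agent.Lib.MP_9bed89_co.Off.UpNum

set_option autoImplicit false

/-!
# The least Ramsey numbers `r(K_3, G)` and `r(C_4, G)` of a graph with `n` edges

`R H n` is the minimum of `r(H, G)` over all finite graphs `G` with exactly `n` edges.
For the triangle the exponent `2/3` is optimal; for the triangle and for the 4-cycle the known
upper bound `c n^(2/3)` is improved by a power of `log n`.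
-/

namespace Pool.Agent.Results.MP_9bed89_co.OffDiagonal

open SimpleGraph Pool.Agent.OffRam Filter Topology

/-- No bound `R K_3 n ≤ C n ^ α` with `α < 2 / 3` holds. -/
lemma no_smaller_exponent (α : ℝ) (hα : α < 2 / 3) (C : ℝ) :
    ∃ n : ℕ, 2 ≤ n ∧ C * (n : ℝ) ^ α < R (⊤ : SimpleGraph (Fin 3)) n := by
  -- `log n ≤ ε n ^ δ` eventually
  set δ := (2 / 3 - α) * (3 / 4) with hδ
  have hδ0 : 0 < δ := by rw [hδ]; linarith
  set D := max C 1 with hD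
  have hD1 : 1 ≤ D := le_max_right _ _
  have h1 := (isLittleO_log_rpow_atTop hδ0).bound (c := 1) one_pos
  have h2 : ∀ᶠ x : ℝ in atTop, D * 2 ^ 14 < x ^ ((2 / 3 - α) / 2) :=
    (tendsto_rpow_atTop (by linarith)).eventually_gt_atTop _
  have h3 := ((h1.and h2).and (eventually_ge_atTop (2 : ℝ)))
  obtain ⟨n, ⟨⟨hn1, hn2⟩, hn3⟩⟩ := (tendsto_natCast_atTop_atTop.eventually h3).exists
  have hn : 2 ≤ n := by exact_mod_cast hn3
  refine ⟨n, hn, ?_⟩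
  have hlow := lower_tri n hn
  have hn0 : (0 : ℝ) < n := by linarith
  have hlog : 0 < Real.log n := Real.log_pos (by linarith)
  rw [Real.norm_of_nonneg hlog.le, Real.norm_of_nonneg (by positivity), one_mul] at hn1
  refine lt_of_lt_of_le ?_ hlow
  have h5 : (n : ℝ) ^ (1 - δ) ≤ n / Real.log n := by
    rw [Real.rpow_sub hn0, Real.rpow_one]
    exact div_le_div_of_nonneg_left hn0.le hlog hn1
  have h6 : ((n : ℝ) ^ (1 - δ)) ^ (2 / 3 : ℝ) ≤ (n / Real.log n) ^ (2 / 3 : ℝ) :=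
    Real.rpow_le_rpow (by positivity) h5 (by norm_num)
  have h7 : ((n : ℝ) ^ (1 - δ)) ^ (2 / 3 : ℝ) = (n : ℝ) ^ ((2 / 3 - α) / 2) * (n : ℝ) ^ α := by
    rw [← Real.rpow_mul hn0.le, ← Real.rpow_add hn0]
    congr 1
    rw [hδ]
    ring
  have h8 : 0 < (n : ℝ) ^ α := by positivity
  calc C * (n : ℝ) ^ α ≤ D * (n : ℝ) ^ α := by
        gcongr
        exact le_max_left _ _
    _ = (1 / 2 ^ 14 : ℝ) * (D * 2 ^ 14 * (n : ℝ) ^ α) := by ring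
    _ < (1 / 2 ^ 14 : ℝ) * ((n : ℝ) ^ ((2 / 3 - α) / 2) * (n : ℝ) ^ α) := by gcongr
    _ = (1 / 2 ^ 14 : ℝ) * ((n : ℝ) ^ (1 - δ)) ^ (2 / 3 : ℝ) := by rw [h7]
    _ ≤ (1 / 2 ^ 14 : ℝ) * (n / Real.log n) ^ (2 / 3 : ℝ) := by gcongr

/-- Bounds for the least Ramsey numbers `r(K_3, G)` and `r(C_4, G)` of a graph `G` with `n` edges:
`(n / log n)^(2/3) / 2^14 ≤ R K_3 n ≤ 50 n^(2/3) / (log n)^(1/3)` and
`R C_4 n ≤ 602 (n / log n)^(2/3)` for all `n ≥ 2`, and no bound `R K_3 n ≤ C n^α` with `α < 2/3`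
holds. -/
theorem result :
    (∀ n : ℕ, 2 ≤ n →
      (1 / 2 ^ 14 : ℝ) * ((n : ℝ) / Real.log n) ^ (2 / 3 : ℝ) ≤ R (⊤ : SimpleGraph (Fin 3)) n ∧
      (R (⊤ : SimpleGraph (Fin 3)) n : ℝ) ≤ 50 * ((n : ℝ) ^ (2 / 3 : ℝ) / Real.log n ^ (1 / 3 : ℝ)) ∧
      (R (cycleGraph 4) n : ℝ) ≤ 602 * ((n : ℝ) / Real.log n) ^ (2 / 3 : ℝ)) ∧
    (∀ α C : ℝ, α < 2 / 3 → ∃ n : ℕ, 2 ≤ n ∧ C * (n : ℝ) ^ α < R (⊤ : SimpleGraph (Fin 3)) n) :=
  ⟨fun n hn => ⟨lower_tri n hn, upper_tri n hn, upper_c4 n hn⟩,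
    fun α C hα => no_smaller_exponent α hα C⟩

end Pool.Agent.Results.MP_9bed89_co.OffDiagonal
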