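import Mathlib

/-!
The smallest diagonal Ramsey number of a graph with exactly `n` edges has order `n / log n`.
-/

namespace Pool.Agent.Results.MP_9bed89_co.OrderOfGrowth

/-- Every colouring of the pairs of an `N`-element set with two colours contains a copy of `G`
all of whose edges have the same colour. -/
def Arrows {k : ℕ} (G : SimpleGraph (Fin k)) (N : ℕ) : Prop :=
  ∀ c : Sym2 (Fin N) → Bool, ∃ (f : Fin k ↪ Fin N) (b : Bool),
    ∀ u v, G.Adj u v → c s(f u, f v) = b

/-- The diagonal Ramsey number `r(G, G)`: the least `N` such that every colouring of the edges of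
the complete graph on `N` vertices with two colours contains a monochromatic copy of `G`. -/
noncomputable def ramseyNumber {k : ℕ} (G : SimpleGraph (Fin k)) : ℕ := sInf {N | Arrows G N}

/-- `R n` is the minimum of `r(G, G)` over all finite graphs `G` with exactly `n` edges. -/
noncomputable def R (n : ℕ) : ℕ :=
  sInf {r | ∃ (k : ℕ) (G : SimpleGraph (Fin k)), G.edgeSet.ncard = n ∧ ramseyNumber G = r}

/-! ### Monochromatic cliques -/

/-- The set `T` is monochromatic of colour `b`. -/
def Mono {V : Type*} (c : Sym2 V → Bool) (b : Bool) (T : Finset V) : Prop :=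
  ∀ x ∈ T, ∀ y ∈ T, x ≠ y → c s(x, y) = b

lemma clique_exists {V : Type*} [DecidableEq V] (c : Sym2 V → Bool) :
    ∀ (s a b : ℕ), a + b = s → ∀ S : Finset V, 2 ^ s ≤ S.card →
      (∃ T ⊆ S, T.card = a ∧ Mono c true T) ∨ (∃ T ⊆ S, T.card = b ∧ Mono c false T) := by
  intro s
  induction s with
  | zero =>
    intro a b hab S _
    have ha : a = 0 := by omega
    exact Or.inl ⟨∅, Finset.empty_subset _, by simp [ha], by intro x hx; simp at hx⟩
  | succ s ih =>
    intro a b hab S hS
    rcases Nat.eq_zero_or_pos a with ha | ha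
    · exact Or.inl ⟨∅, Finset.empty_subset _, by simp [ha], by intro x hx; simp at hx⟩
    rcases Nat.eq_zero_or_pos b with hb | hb
    · exact Or.inr ⟨∅, Finset.empty_subset _, by simp [hb], by intro x hx; simp at hx⟩
    have hpos : 0 < S.card := lt_of_lt_of_le (by positivity) hS
    obtain ⟨x, hx⟩ := Finset.card_pos.1 hpos
    set St := (S.erase x).filter (fun y => c s(x, y) = true) with hSt
    set Sf := (S.erase x).filter (fun y => ¬ c s(x, y) = true) with hSf
    have hsum : St.card + Sf.card = S.card - 1 := by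
      rw [hSt, hSf, Finset.card_filter_add_card_filter_not, Finset.card_erase_of_mem hx]
    have h2 : 2 ^ (s + 1) = 2 * 2 ^ s := by ring
    have hcase : 2 ^ s ≤ St.card ∨ 2 ^ s ≤ Sf.card := by
      by_contra hcon
      push Not at hcon
      omega
    rcases hcase with h | h
    · rcases ih (a - 1) b (by omega) St h with ⟨T, hT, hTc, hTm⟩ | ⟨T, hT, hTc, hTm⟩
      · left
        have hxT : x ∉ T := fun hxT => by
          have := hT hxT
          simp [hSt] at this
        refine ⟨insert x T, ?_, ?_, ?_⟩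
        · intro y hy
          rcases Finset.mem_insert.1 hy with rfl | hy
          · exact hx
          · exact Finset.mem_of_mem_erase (Finset.mem_filter.1 (hT hy)).1
        · rw [Finset.card_insert_of_notMem hxT]; omega
        · intro y hy z hz hyz
          rcases Finset.mem_insert.1 hy with h1 | h1 <;> rcases Finset.mem_insert.1 hz with h2 | h2
          · exact absurd (h1.trans h2.symm) hyz
          · rw [h1]; exact (Finset.mem_filter.1 (hT h2)).2
          · rw [h2, Sym2.eq_swap]; exact (Finset.mem_filter.1 (hT h1)).2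
          · exact hTm y h1 z h2 hyz
      · right
        exact ⟨T, fun y hy => Finset.mem_of_mem_erase (Finset.mem_filter.1 (hT hy)).1, hTc, hTm⟩
    · rcases ih a (b - 1) (by omega) Sf h with ⟨T, hT, hTc, hTm⟩ | ⟨T, hT, hTc, hTm⟩
      · left
        exact ⟨T, fun y hy => Finset.mem_of_mem_erase (Finset.mem_filter.1 (hT hy)).1, hTc, hTm⟩
      · right
        have hxT : x ∉ T := fun hxT => by
          have := hT hxT
          simp [hSf] at this
        refine ⟨insert x T, ?_, ?_, ?_⟩
        · intro y hy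
          rcases Finset.mem_insert.1 hy with rfl | hy
          · exact hx
          · exact Finset.mem_of_mem_erase (Finset.mem_filter.1 (hT hy)).1
        · rw [Finset.card_insert_of_notMem hxT]; omega
        · intro y hy z hz hyz
          rcases Finset.mem_insert.1 hy with h1 | h1 <;> rcases Finset.mem_insert.1 hz with h2 | h2
          · exact absurd (h1.trans h2.symm) hyz
          · rw [h1]
            have := (Finset.mem_filter.1 (hT h2)).2
            simpa using this
          · rw [h2, Sym2.eq_swap]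
            have := (Finset.mem_filter.1 (hT h1)).2
            simpa using this
          · exact hTm y h1 z h2 hyz

lemma mono_exists {V : Type*} [DecidableEq V] (c : Sym2 V → Bool) (m : ℕ) (S : Finset V)
    (hS : 4 ^ m ≤ S.card) : ∃ T ⊆ S, T.card = m ∧ ∃ b, Mono c b T := by
  have h : 2 ^ (m + m) ≤ S.card := by
    have : (4 : ℕ) ^ m = 2 ^ (m + m) := by
      rw [← two_mul, pow_mul]; norm_num
    omega
  rcases clique_exists c (m + m) m m rfl S h with ⟨T, h1, h2, h3⟩ | ⟨T, h1, h2, h3⟩
  · exact ⟨T, h1, h2, true, h3⟩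
  · exact ⟨T, h1, h2, false, h3⟩

lemma many_cliques {N : ℕ} (c : Sym2 (Fin N) → Bool) (m : ℕ) :
    ∀ j : ℕ, j * m + 4 ^ m ≤ N → ∃ (T : ℕ → Finset (Fin N)) (col : ℕ → Bool),
      (∀ i < j, (T i).card = m ∧ Mono c (col i) (T i)) ∧
      (∀ i < j, ∀ i' < j, i ≠ i' → Disjoint (T i) (T i')) := by
  intro j
  induction j with
  | zero =>
    intro _
    exact ⟨fun _ => ∅, fun _ => true, fun i hi => absurd hi (by omega),
      fun i hi => absurd hi (by omega)⟩
  | succ j ih =>
    intro hN
    have hmul : (j + 1) * m = j * m + m := by ring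
    obtain ⟨T, col, h1, h2⟩ := ih (by omega)
    set U : Finset (Fin N) := Finset.univ \ (Finset.range j).biUnion T with hU
    have hUc : 4 ^ m ≤ U.card := by
      have hb : ((Finset.range j).biUnion T).card ≤ j * m := by
        refine le_trans Finset.card_biUnion_le ?_
        rw [Finset.sum_congr rfl (fun i hi => (h1 i (Finset.mem_range.1 hi)).1)]
        simp
      have := Finset.le_card_sdiff ((Finset.range j).biUnion T) (Finset.univ : Finset (Fin N))
      rw [Finset.card_univ, Fintype.card_fin, ← hU] at this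
      omega
    obtain ⟨T', hT', hc', b, hb⟩ := mono_exists c m U hUc
    have hdis : ∀ i < j, Disjoint (T i) T' := by
      intro i hi
      rw [Finset.disjoint_left]
      intro x hx hx'
      have := hT' hx'
      rw [hU, Finset.mem_sdiff] at this
      exact this.2 (Finset.mem_biUnion.2 ⟨i, Finset.mem_range.2 hi, hx⟩)
    refine ⟨Function.update T j T', Function.update col j b, ?_, ?_⟩
    · intro i hi
      by_cases hij : i = j
      · subst hij
        simp [hc', hb]
      · rw [Function.update_of_ne hij, Function.update_of_ne hij]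
        exact h1 i (by omega)
    · intro i hi i' hi' hne
      by_cases hij : i = j
      · subst hij
        rw [Function.update_self, Function.update_of_ne (Ne.symm hne)]
        exact (hdis i' (by omega)).symm
      · by_cases hij' : i' = j
        · subst hij'
          rw [Function.update_self, Function.update_of_ne hij]
          exact hdis i (by omega)
        · rw [Function.update_of_ne hij, Function.update_of_ne hij']
          exact h2 i (by omega) i' (by omega) hne

/-- A vertex of `t K_m` is a pair; this is the graph `t K_m`. -/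
def cliques (t m : ℕ) : SimpleGraph (Fin t × Fin m) where
  Adj x y := x.1 = y.1 ∧ x.2 ≠ y.2
  symm := ⟨fun _ _ h => ⟨h.1.symm, h.2.symm⟩⟩
  loopless := ⟨fun _ h => h.2 rfl⟩

lemma cliques_arrows (t m N : ℕ) (hN : 2 * t * m + 4 ^ m ≤ N) (c : Sym2 (Fin N) → Bool) :
    ∃ (f : Fin t × Fin m ↪ Fin N) (b : Bool), ∀ u v, (cliques t m).Adj u v → c s(f u, f v) = b := by
  obtain ⟨T, col, h1, h2⟩ := many_cliques c m (2 * t) (by simpa using hN)
  obtain ⟨b, hb⟩ : ∃ b, t ≤ ((Finset.range (2 * t)).filter (fun i => col i = b)).card := by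
    by_contra hcon
    push Not at hcon
    have h3 := hcon true
    have h4 := hcon false
    have h5 : ((Finset.range (2 * t)).filter (fun i => col i = true)).card +
        ((Finset.range (2 * t)).filter (fun i => ¬ col i = true)).card = 2 * t := by
      rw [Finset.card_filter_add_card_filter_not, Finset.card_range]
    have h6 : (Finset.range (2 * t)).filter (fun i => ¬ col i = true) =
        (Finset.range (2 * t)).filter (fun i => col i = false) := by
      ext i; simp
    rw [h6] at h5
    omega
  obtain ⟨S, hS, hSc⟩ := Finset.exists_subset_card_eq hb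
  have hmem : ∀ i : Fin t, S.orderEmbOfFin hSc i < 2 * t ∧ col (S.orderEmbOfFin hSc i) = b := by
    intro i
    have := Finset.mem_filter.1 (hS (S.orderEmbOfFin_mem hSc i))
    exact ⟨Finset.mem_range.1 this.1, this.2⟩
  have hcard : ∀ i : Fin t, (T (S.orderEmbOfFin hSc i)).card = m := fun i =>
    (h1 _ (hmem i).1).1
  let f : Fin t × Fin m → Fin N := fun x =>
    (T (S.orderEmbOfFin hSc x.1)).orderEmbOfFin (hcard x.1) x.2
  have hfm : ∀ x, f x ∈ T (S.orderEmbOfFin hSc x.1) := fun x => Finset.orderEmbOfFin_mem _ _ _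
  have hinj : Function.Injective f := by
    rintro ⟨i, a⟩ ⟨i', a'⟩ h
    have hii : i = i' := by
      by_contra hne
      have hne' : S.orderEmbOfFin hSc i ≠ S.orderEmbOfFin hSc i' := fun h' =>
        hne ((S.orderEmbOfFin hSc).injective h')
      have := h2 _ (hmem i).1 _ (hmem i').1 hne'
      refine Finset.disjoint_left.1 this (hfm (i, a)) ?_
      rw [h]
      exact hfm (i', a')
    subst hii
    have h3 : a = a' := ((T (S.orderEmbOfFin hSc i)).orderEmbOfFin (hcard i)).injective h
    rw [h3]
  refine ⟨⟨f, hinj⟩, b, ?_⟩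
  rintro ⟨i, a⟩ ⟨i', a'⟩ ⟨hii, haa⟩
  simp only at hii haa
  subst hii
  have hm := (h1 _ (hmem i).1).2
  rw [(hmem i).2] at hm
  refine hm _ (hfm (i, a)) _ (hfm (i, a')) ?_
  intro h
  have := hinj h
  simp only [Prod.mk.injEq, true_and] at this
  exact haa this

instance (t m : ℕ) : DecidableRel (cliques t m).Adj := fun x y => by
  unfold cliques; infer_instance

lemma cliques_edges (t m : ℕ) : 2 * (cliques t m).edgeFinset.card = t * m * (m - 1) := by
  rw [← SimpleGraph.sum_degrees_eq_twice_card_edges]
  have hdeg : ∀ x : Fin t × Fin m, (cliques t m).degree x = m - 1 := by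
    rintro ⟨i, a⟩
    have : (cliques t m).neighborFinset (i, a) = {i} ×ˢ (Finset.univ.erase a) := by
      ext ⟨j, b⟩
      rw [SimpleGraph.mem_neighborFinset]
      simp only [Finset.mem_product, Finset.mem_singleton,
        Finset.mem_erase, Finset.mem_univ, and_true]
      change (i = j ∧ a ≠ b) ↔ _
      constructor
      · rintro ⟨h1, h2⟩; exact ⟨h1.symm, fun h => h2 h.symm⟩
      · rintro ⟨h1, h2⟩; exact ⟨h1.symm, fun h => h2 h.symm⟩
    rw [← SimpleGraph.card_neighborFinset_eq_degree, this, Finset.card_product,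
      Finset.card_singleton, Finset.card_erase_of_mem (Finset.mem_univ _), Finset.card_univ,
      Fintype.card_fin, one_mul]
  rw [Finset.sum_congr rfl (fun x _ => hdeg x), Finset.sum_const, Finset.card_univ,
    Fintype.card_prod, Fintype.card_fin, Fintype.card_fin, smul_eq_mul]

lemma upper_graph (n t m : ℕ) (h : 2 * n ≤ t * m * (m - 1)) :
    ∃ (k : ℕ) (G : SimpleGraph (Fin k)), G.edgeSet.ncard = n ∧ Arrows G (2 * t * m + 4 ^ m) := by
  have hn : n ≤ (cliques t m).edgeFinset.card := by
    have := cliques_edges t m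
    omega
  obtain ⟨S, hS, hSc⟩ := Finset.exists_subset_card_eq hn
  set G' : SimpleGraph (Fin t × Fin m) := SimpleGraph.fromEdgeSet (S : Set (Sym2 (Fin t × Fin m)))
    with hG'
  have hS' : ∀ e ∈ S, e ∈ (cliques t m).edgeSet := fun e he =>
    SimpleGraph.mem_edgeFinset.1 (hS he)
  have hE : G'.edgeSet = (S : Set (Sym2 (Fin t × Fin m))) := by
    rw [hG', SimpleGraph.edgeSet_fromEdgeSet]
    ext e
    constructor
    · intro he; exact he.1
    · intro he
      exact ⟨he, (cliques t m).not_isDiag_of_mem_edgeSet (hS' e he)⟩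
  set G : SimpleGraph (Fin (t * m)) := G'.comap finProdFinEquiv.symm with hG
  refine ⟨t * m, G, ?_, ?_⟩
  · have iso : G ≃g G' := SimpleGraph.Iso.comap finProdFinEquiv.symm G'
    have h1 : G.edgeSet.ncard = G'.edgeSet.ncard := by
      rw [← Nat.card_coe_set_eq, ← Nat.card_coe_set_eq]
      exact Nat.card_congr iso.mapEdgeSet
    rw [h1, hE, Set.ncard_coe_finset, hSc]
  · intro c
    obtain ⟨f, b, hf⟩ := cliques_arrows t m _ le_rfl c
    refine ⟨finProdFinEquiv.symm.toEmbedding.trans f, b, ?_⟩
    intro u v huv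
    have h1 : G'.Adj (finProdFinEquiv.symm u) (finProdFinEquiv.symm v) := huv
    have h2 : s(finProdFinEquiv.symm u, finProdFinEquiv.symm v) ∈ S := by
      have : s(finProdFinEquiv.symm u, finProdFinEquiv.symm v) ∈ G'.edgeSet := h1
      rw [hE] at this
      exact this
    exact hf _ _ (hS' _ h2)

/-! ### The lower bound -/

lemma lower_count {k : ℕ} (G : SimpleGraph (Fin k)) (N : ℕ) (hN : Arrows G N)
    (hn : 1 ≤ G.edgeSet.ncard) : 2 ^ G.edgeSet.ncard ≤ 2 * N ^ N := by
  classical
  set n := G.edgeSet.ncard with hndef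
  have hcard : G.edgeFinset.card = n := by
    rw [hndef, ← SimpleGraph.coe_edgeFinset, Set.ncard_coe_finset]
  obtain ⟨f₀, -⟩ := hN (fun _ => true)
  have hkN : k ≤ N := by simpa using Fintype.card_le_of_embedding f₀
  have hNpos : 0 < N := by
    rcases Nat.eq_zero_or_pos N with h0 | h0
    · exfalso
      have hk : k = 0 := by omega
      subst hk
      have : G.edgeFinset = ∅ := by
        rw [Finset.eq_empty_iff_forall_notMem]
        intro e _
        induction e with
        | _ x y => exact x.elim0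
      rw [this] at hcard
      simp at hcard
      omega
    · exact h0
  set M := Fintype.card (Sym2 (Fin N)) with hM
  let T : (Fin k ↪ Fin N) → Finset (Sym2 (Fin N)) := fun f => G.edgeFinset.image (Sym2.map f)
  have hT : ∀ f, (T f).card = n := fun f => by
    rw [Finset.card_image_of_injective _ (Sym2.map.injective f.injective), hcard]
  have hnM : n ≤ M := by
    rw [← hT f₀]
    exact Finset.card_le_univ _
  let A : (Fin k ↪ Fin N) × Bool → Finset (Sym2 (Fin N) → Bool) := fun p =>
    Fintype.piFinset (fun e => if e ∈ T p.1 then {p.2} else Finset.univ)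
  have hA : ∀ p, (A p).card = 2 ^ (M - n) := by
    intro p
    rw [Fintype.card_piFinset]
    have h1 : ∀ e : Sym2 (Fin N), (if e ∈ T p.1 then ({p.2} : Finset Bool) else Finset.univ).card
        = if e ∈ T p.1 then 1 else 2 := by
      intro e; split_ifs <;> simp
    rw [Finset.prod_congr rfl (fun e _ => h1 e), Finset.prod_ite, Finset.prod_const_one, one_mul,
      Finset.prod_const]
    congr 1
    have h2 : Finset.univ.filter (fun e => e ∉ T p.1) = (T p.1)ᶜ := by
      ext e; simp
    rw [h2, Finset.card_compl, hT]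
  have hcover : (Finset.univ : Finset (Sym2 (Fin N) → Bool)) ⊆ Finset.univ.biUnion A := by
    intro c _
    obtain ⟨f, b, hf⟩ := hN c
    refine Finset.mem_biUnion.2 ⟨(f, b), Finset.mem_univ _, ?_⟩
    rw [Fintype.mem_piFinset]
    intro e
    split_ifs with he
    · obtain ⟨e', he', rfl⟩ := Finset.mem_image.1 he
      induction e' with
      | _ x y =>
        rw [Finset.mem_singleton, Sym2.map_mk]
        exact hf x y (SimpleGraph.mem_edgeFinset.1 he')
    · exact Finset.mem_univ _
  have h1 : 2 ^ M ≤ Fintype.card ((Fin k ↪ Fin N) × Bool) * 2 ^ (M - n) := by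
    have h2 := Finset.card_le_card hcover
    have h3 := Finset.card_biUnion_le (s := Finset.univ) (t := A)
    rw [Finset.sum_congr rfl (fun p _ => hA p), Finset.sum_const, smul_eq_mul,
      Finset.card_univ] at h3
    rw [Finset.card_univ, Fintype.card_fun, Fintype.card_bool] at h2
    exact le_trans h2 h3
  have h2 : Fintype.card ((Fin k ↪ Fin N) × Bool) ≤ 2 * N ^ N := by
    rw [Fintype.card_prod, Fintype.card_bool, mul_comm]
    refine Nat.mul_le_mul_left 2 ?_
    have h3 : Fintype.card (Fin k ↪ Fin N) ≤ Fintype.card (Fin k → Fin N) :=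
      Fintype.card_le_of_injective (fun f => (f : Fin k → Fin N)) DFunLike.coe_injective
    rw [Fintype.card_fun, Fintype.card_fin, Fintype.card_fin] at h3
    exact le_trans h3 (Nat.pow_le_pow_right hNpos hkN)
  have h3 : 2 ^ M = 2 ^ n * 2 ^ (M - n) := by
    rw [← pow_add]; congr 1; omega
  rw [h3] at h1
  have h4 : 0 < 2 ^ (M - n) := by positivity
  exact le_trans (Nat.le_of_mul_le_mul_right h1 h4) h2

/-! ### Real estimates -/

lemma log_le_two_sqrt {x : ℝ} (hx : 0 < x) : Real.log x ≤ 2 * Real.sqrt x := by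
  have h1 : Real.log (Real.sqrt x) ≤ Real.sqrt x - 1 :=
    Real.log_le_sub_one_of_pos (Real.sqrt_pos.2 hx)
  rw [Real.log_sqrt hx.le] at h1
  linarith

lemma lower_real (n N : ℕ) (hn : 2 ≤ n) (h : 2 ^ n ≤ 2 * N ^ N) :
    Real.log 2 / 2 * ((n : ℝ) / Real.log n) ≤ N := by
  have hn' : (2 : ℝ) ≤ n := by exact_mod_cast hn
  have hlog2 : 0 < Real.log 2 := Real.log_pos (by norm_num)
  have hlog : Real.log 2 ≤ Real.log n := Real.log_le_log (by norm_num) hn'
  have hlogn : 0 < Real.log n := lt_of_lt_of_le hlog2 hlog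
  have hNpos : 0 < N := by
    rcases Nat.eq_zero_or_pos N with h0 | h0
    · exfalso
      subst h0
      have : 2 ^ 2 ≤ 2 ^ n := Nat.pow_le_pow_right (by norm_num) hn
      simp at h
      omega
    · exact h0
  have hNr : (1 : ℝ) ≤ N := by exact_mod_cast hNpos
  rw [← mul_div_assoc, div_le_iff₀ hlogn]
  rcases le_or_gt n N with hc | hc
  · have hc' : (n : ℝ) ≤ N := by exact_mod_cast hc
    nlinarith
  · have hc' : (N : ℝ) ≤ n := by exact_mod_cast hc.le
    have h1 : (2 : ℝ) ^ n ≤ 2 * (N : ℝ) ^ N := by exact_mod_cast h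
    have h2 := Real.log_le_log (by positivity) h1
    rw [Real.log_pow, Real.log_mul (by norm_num) (by positivity), Real.log_pow] at h2
    have h3 : Real.log N ≤ Real.log n := Real.log_le_log (by linarith) hc'
    have h4 : (N : ℝ) * Real.log N ≤ N * Real.log n := mul_le_mul_of_nonneg_left h3 (by linarith)
    nlinarith

lemma upper_real (n : ℕ) (hn : 2 ≤ n) :
    let m := Nat.log 2 n / 4 + 2
    let t := 2 * n / (m * (m - 1)) + 1
    2 * n ≤ t * m * (m - 1) ∧
      ((2 * t * m + 4 ^ m : ℕ) : ℝ) ≤ 60 * ((n : ℝ) / Real.log n) := by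
  intro m t
  set L := Nat.log 2 n with hL
  have hm2 : 2 ≤ m := by simp [m]
  have hmm : 0 < m * (m - 1) := Nat.mul_pos (by omega) (by omega)
  refine ⟨?_, ?_⟩
  · have h1 : 2 * n < (2 * n / (m * (m - 1)) + 1) * (m * (m - 1)) := by
      have := Nat.lt_div_mul_add hmm (a := 2 * n)
      rw [add_mul, one_mul]
      exact this
    calc 2 * n ≤ t * (m * (m - 1)) := h1.le
      _ = t * m * (m - 1) := by ring
  · have hn' : (2 : ℝ) ≤ n := by exact_mod_cast hn
    have hn0 : (0 : ℝ) < n := by linarith
    have hlog2 : 0 < Real.log 2 := Real.log_pos (by norm_num)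
    have hlog2' : Real.log 2 < 0.6931471808 := Real.log_two_lt_d9
    have hlog2'' : 0.6931471803 < Real.log 2 := Real.log_two_gt_d9
    have hlog : Real.log 2 ≤ Real.log n := Real.log_le_log (by norm_num) hn'
    have hlogn : 0 < Real.log n := lt_of_lt_of_le hlog2 hlog
    have hmr : ((m - 1 : ℕ) : ℝ) = (m : ℝ) - 1 := by
      rw [Nat.cast_sub (by omega)]; simp
    -- size of L
    have hLlow : 2 ^ L ≤ n := Nat.pow_log_le_self 2 (by omega)
    have hLup : n < 2 ^ (L + 1) := Nat.lt_pow_succ_log_self (by norm_num) n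
    have hL1 : (L : ℝ) * Real.log 2 ≤ Real.log n := by
      have : ((2 : ℝ) ^ L) ≤ n := by exact_mod_cast hLlow
      have := Real.log_le_log (by positivity) this
      rwa [Real.log_pow] at this
    have hL2 : Real.log n ≤ ((L : ℝ) + 1) * Real.log 2 := by
      have : (n : ℝ) ≤ (2 : ℝ) ^ (L + 1) := by exact_mod_cast hLup.le
      have := Real.log_le_log hn0 this
      rw [Real.log_pow] at this
      push_cast at this
      exact this
    have hm1 : ((L : ℝ) + 1) / 4 ≤ (m : ℝ) - 1 := by
      have : L + 1 ≤ 4 * (m - 1) := by simp only [m]; omega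
      have h2 : ((L + 1 : ℕ) : ℝ) ≤ ((4 * (m - 1) : ℕ) : ℝ) := by exact_mod_cast this
      rw [Nat.cast_mul, hmr] at h2
      push_cast at h2
      linarith
    have hm3 : (2 : ℝ) * m ≤ L / 2 + 4 := by
      have : 4 * m ≤ L + 8 := by simp only [m]; omega
      have h2 : ((4 * m : ℕ) : ℝ) ≤ ((L + 8 : ℕ) : ℝ) := by exact_mod_cast this
      push_cast at h2
      linarith
    have hmpos : (0 : ℝ) < (m : ℝ) - 1 := by
      have : (2 : ℝ) ≤ m := by exact_mod_cast hm2
      linarith
    have hm0 : (0 : ℝ) < m := by linarith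
    -- t
    have ht : (t : ℝ) ≤ 2 * n / (m * ((m : ℝ) - 1)) + 1 := by
      have := Nat.cast_div_le (α := ℝ) (m := 2 * n) (n := m * (m - 1))
      simp only [t]
      push_cast
      rw [Nat.cast_mul m (m - 1), hmr] at this
      push_cast at this
      linarith
    have h2tm : (2 : ℝ) * t * m ≤ 4 * n / ((m : ℝ) - 1) + 2 * m := by
      have h1 : (2 : ℝ) * t * m ≤ 2 * (2 * n / (m * ((m : ℝ) - 1)) + 1) * m := by
        have := mul_le_mul_of_nonneg_right ht hm0.le
        linarith
      have h2 : (2 : ℝ) * (2 * n / (m * ((m : ℝ) - 1)) + 1) * m = 4 * n / ((m : ℝ) - 1) + 2 * m := by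
        field_simp
        ring
      linarith
    -- first term
    have hA : 4 * (n : ℝ) / ((m : ℝ) - 1) ≤ 16 * Real.log 2 * ((n : ℝ) / Real.log n) := by
      have h1 : Real.log n / (4 * Real.log 2) ≤ (m : ℝ) - 1 := by
        rw [div_le_iff₀ (by positivity)]
        nlinarith
      have h2 : 4 * (n : ℝ) / ((m : ℝ) - 1) ≤ 4 * n / (Real.log n / (4 * Real.log 2)) :=
        div_le_div_of_nonneg_left (by positivity) (by positivity) h1
      have h3 : 4 * (n : ℝ) / (Real.log n / (4 * Real.log 2)) =
          16 * Real.log 2 * ((n : ℝ) / Real.log n) := by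
        field_simp
        ring
      linarith
    -- sqrt
    have hsq : Real.log n ≤ 2 * Real.sqrt n := log_le_two_sqrt hn0
    have hsn : Real.sqrt n * Real.sqrt n = n := Real.mul_self_sqrt hn0.le
    have hs0 : 0 < Real.sqrt n := Real.sqrt_pos.2 hn0
    have hB : Real.sqrt n ≤ 2 * ((n : ℝ) / Real.log n) := by
      rw [← mul_div_assoc, le_div_iff₀ hlogn]
      nlinarith
    have hC : Real.log n ≤ 4 * ((n : ℝ) / Real.log n) := by
      rw [← mul_div_assoc, le_div_iff₀ hlogn]
      nlinarith
    have hD : 1 ≤ (n : ℝ) / Real.log n := by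
      rw [le_div_iff₀ hlogn, one_mul]
      have := Real.log_le_sub_one_of_pos hn0
      linarith
    have h4m : ((4 : ℝ) ^ m) ≤ 16 * Real.sqrt n := by
      have h1 : (4 : ℝ) ^ m = 16 * 4 ^ (L / 4) := by
        simp only [m]
        rw [pow_add]
        norm_num
        ring
      rw [h1]
      have h2 : (4 : ℝ) ^ (L / 4) ≤ Real.sqrt n := by
        apply Real.le_sqrt_of_sq_le
        rw [← pow_mul]
        have h3 : (4 : ℝ) ^ (L / 4 * 2) = 2 ^ (L / 4 * 4) := by
          have h4' : (4 : ℝ) = 2 ^ 2 := by norm_num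
          rw [h4', ← pow_mul]
          congr 1
          ring
        rw [h3]
        have h4 : (2 : ℝ) ^ (L / 4 * 4) ≤ 2 ^ L :=
          pow_le_pow_right₀ (by norm_num) (Nat.div_mul_le_self L 4)
        have h5 : (2 : ℝ) ^ L ≤ n := by exact_mod_cast hLlow
        linarith
      linarith
    have hLn : (L : ℝ) ≤ 1.5 * Real.log n := by nlinarith
    have hX : 0 < (n : ℝ) / Real.log n := by positivity
    push_cast
    have hfin : 16 * Real.log 2 * ((n : ℝ) / Real.log n) ≤ 12 * ((n : ℝ) / Real.log n) := by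
      nlinarith
    linarith

lemma exists_graph (n : ℕ) (hn : 2 ≤ n) : ∃ (k : ℕ) (G : SimpleGraph (Fin k)) (N : ℕ),
    G.edgeSet.ncard = n ∧ Arrows G N ∧ (N : ℝ) ≤ 60 * ((n : ℝ) / Real.log n) := by
  obtain ⟨h1, h2⟩ := upper_real n hn
  obtain ⟨k, G, hG, hA⟩ := upper_graph n _ _ h1
  exact ⟨k, G, _, hG, hA, h2⟩

lemma arrows_exists {k : ℕ} (G : SimpleGraph (Fin k)) : ∃ N, Arrows G N := by
  refine ⟨4 ^ k, fun c => ?_⟩
  obtain ⟨T, -, hT, b, hb⟩ := mono_exists c k Finset.univ (by simp)
  refine ⟨(T.orderEmbOfFin hT).toEmbedding, b, ?_⟩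
  intro u v huv
  refine hb _ (Finset.orderEmbOfFin_mem _ _ _) _ (Finset.orderEmbOfFin_mem _ _ _) ?_
  intro h
  exact huv.ne ((T.orderEmbOfFin hT).injective h)

/-- The minimum `R n` of `r(G, G)` over graphs with exactly `n` edges is of order `n / log n`. -/
theorem result : ∀ n : ℕ, 2 ≤ n →
    Real.log 2 / 2 * ((n : ℝ) / Real.log n) ≤ (R n : ℝ) ∧
      (R n : ℝ) ≤ 60 * ((n : ℝ) / Real.log n) := by
  intro n hn
  obtain ⟨k, G, N, hG, hA, hN⟩ := exists_graph n hn
  have hne : {r | ∃ (k : ℕ) (G : SimpleGraph (Fin k)), G.edgeSet.ncard = n ∧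
      ramseyNumber G = r}.Nonempty := ⟨_, k, G, hG, rfl⟩
  constructor
  · obtain ⟨k', G', hG', hr⟩ := Nat.sInf_mem hne
    have harr : Arrows G' (ramseyNumber G') := Nat.sInf_mem (arrows_exists G')
    rw [hr] at harr
    have h1 := lower_count G' _ harr (by omega)
    rw [hG'] at h1
    exact lower_real n _ hn h1
  · have h1 : R n ≤ ramseyNumber G := Nat.sInf_le ⟨k, G, hG, rfl⟩
    have h2 : ramseyNumber G ≤ N := Nat.sInf_le hA
    have h3 : (R n : ℝ) ≤ N := by exact_mod_cast h1.trans h2
    linarith

end Pool.Agent.Results.MP_9bed89_co.OrderOfGrowth
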